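import Pool.Agent.H40.Vant

set_option autoImplicit false

namespace Pool.Agent.Results.MP_617207_lc.LinearLower

open Finset SimpleGraph Pool.Agent.H40.Vant

section
variable {F : Type} [Field F]

def inc (u t : F × F) : Prop := u.2 = t.1 * u.1 + t.2

def PL (F : Type) [Field F] : SimpleGraph ((F × F) ⊕ (F × F)) where
  Adj
    | .inl u, .inr t => inc u t
    | .inr t, .inl u => inc u t
    | _, _ => False
  symm := ⟨by rintro (u | u) (v | v) h <;> exact h⟩
  loopless := ⟨by rintro (u | u) h <;> exact h⟩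

def pt (τ : F × F × F) : (F × F) ⊕ (F × F) := .inl (τ.1, τ.2.1 * τ.1 + τ.2.2)
def ln (τ : F × F × F) : (F × F) ⊕ (F × F) := .inr τ.2
def src (a : F) (τ : F × F × F) : F := τ.2.1 * τ.1 + τ.2.2 - a * τ.1
def ed (τ : F × F × F) : Sym2 ((F × F) ⊕ (F × F)) := s(pt τ, ln τ)

theorem ed_inj : Function.Injective (ed (F := F)) := by
  rintro ⟨x, a⟩ ⟨y, b⟩ h
  simp only [ed, pt, ln, Sym2.eq_iff, Sum.inl.injEq, Sum.inr.injEq, Prod.mk.injEq, reduceCtorEq,
    and_self, or_false] at h
  exact Prod.ext h.1.1 h.2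

theorem ed_surj (e : Sym2 ((F × F) ⊕ (F × F))) (he : e ∈ (PL F).edgeSet) : ∃ τ, ed τ = e := by
  induction e using Sym2.ind with
  | _ u v =>
    rcases u with u | u <;> rcases v with v | v
    · exact he.elim
    · exact ⟨(u.1, v), by simp only [ed, pt, ln]; rw [← show u.2 = _ from he]⟩
    · exact ⟨(v.1, u), by simp only [ed, pt, ln]; rw [← show v.2 = _ from he, Sym2.eq_swap]⟩
    · exact he.elim

theorem two (len : Sym2 ((F × F) ⊕ (F × F)) → ℝ) (B : ℝ) (hB : 0 < B)
    (h : ∀ s t (p : (PL F).Walk s t), p.IsPath → p.length * B ≤ wt _ len p ∧ wt _ len p < (p.length + 1) * B)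
    (c : Sym2 ((F × F) ⊕ (F × F)) → ℝ) (a : F) (τ : F × F × F) (ha : τ.2.1 ≠ a)
    (hc : c (ed τ) < c s(.inr (a, src a τ), pt τ)) :
    Bott (PL F) len c (.inr (a, src a τ)) (ln τ) (ed τ) := by
  have h1 : (PL F).Adj (.inr (a, src a τ)) (pt τ) := by
    show τ.2.1 * τ.1 + τ.2.2 = a * τ.1 + src a τ
    simp [src]
  have h2 : (PL F).Adj (pt τ) (ln τ) := rfl
  have hne : (Sum.inr (a, src a τ) : (F × F) ⊕ (F × F)) ≠ ln τ := by
    intro e
    exact ha (congrArg Prod.fst (Sum.inr.inj e)).symm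
  have hp : (Walk.cons h1 (Walk.cons h2 Walk.nil)).IsPath := by
    rw [Walk.cons_isPath_iff, Walk.cons_isPath_iff]
    refine ⟨⟨Walk.IsPath.nil, by simpa using h2.ne⟩, ?_⟩
    simp only [Walk.support_cons, Walk.support_nil, List.mem_cons, List.not_mem_nil, or_false, not_or]
    exact ⟨h1.ne, hne⟩
  refine ⟨Walk.cons h1 (Walk.cons h2 Walk.nil), ⟨hp, fun q hq => ?_⟩, by simp [ed], ?_⟩
  · by_cases h3 : 3 ≤ q.length
    · have a1 := (h _ _ _ hp).2
      have a2 := (h _ _ _ hq).1
      have a3 : (3 : ℝ) ≤ q.length := by exact_mod_cast h3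
      simp only [Walk.length_cons, Walk.length_nil] at a1
      push_cast at a1
      nlinarith
    · generalize hs : (Sum.inr (a, src a τ) : (F × F) ⊕ (F × F)) = s at q h1 hp hne hq h3
      generalize ht : ln τ = t at q h2 hp hne hq h3
      cases q with
      | nil => exact absurd rfl hne
      | cons g1 q =>
        cases q with
        | nil => subst hs; rw [← ht] at g1; exact g1.elim
        | cons g2 q =>
          cases q with
          | cons g3 q => simp at h3
          | nil =>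
            rename_i u
            have : u = pt τ := by
              subst hs ht
              rcases u with u | u
              · have e1 : u.2 = a * u.1 + src a τ := g1
                have e2 : u.2 = τ.2.1 * u.1 + τ.2.2 := g2
                have e3 : u.1 = τ.1 := by
                  have : (τ.2.1 - a) * (u.1 - τ.1) = 0 := by
                    unfold src at e1; linear_combination e1 - e2
                  exact sub_eq_zero.1 ((mul_eq_zero.1 this).resolve_left (sub_ne_zero.2 ha))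
                exact congrArg Sum.inl (Prod.ext e3 (by rw [e2, e3]))
              · exact g1.elim
            subst this
            exact le_rfl
  · intro f hf hn
    simp only [Walk.edges_cons, Walk.edges_nil, List.mem_cons, List.not_mem_nil, or_false] at hf
    rcases hf with rfl | rfl
    · exact hc
    · exact absurd rfl hn

theorem fib [Fintype F] [DecidableEq F] {α β γ : Type} [Fintype α] [Fintype γ] [DecidableEq β]
    (f : α → β) (g : α → γ) (hi : ∀ x y, f x = f y → g x = g y → x = y) (Q : Finset β) :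
    (univ.filter fun τ => f τ ∈ Q).card ≤ Fintype.card γ * Q.card := by
  refine card_le_mul_card_image_of_maps_to (f := f) (fun a ha => (mem_filter.1 ha).2) _ fun b _ => ?_
  rw [← card_univ]
  refine card_le_card_of_injOn g (fun _ _ => mem_coe.2 (mem_univ _)) fun x hx y hy e => hi x y ?_ e
  rw [(mem_filter.1 (mem_coe.1 hx)).2, (mem_filter.1 (mem_coe.1 hy)).2]

open Classical in
theorem main [Fintype F] (h3 : 3 ≤ Fintype.card F) : ∃ len, Good (PL F) len ∧
    ∀ A : Strat ((F × F) ⊕ (F × F)), ∃ c : Sym2 ((F × F) ⊕ (F × F)) → ℝ, (∀ e, 0 < c e) ∧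
      ∀ n, 16 * (chosen (PL F) len c A n).ncard ≤ Fintype.card ((F × F) ⊕ (F × F)) →
        (R (PL F) len c (chosen (PL F) len c A n)).ncard < OPT (PL F) len c (Fintype.card F) := by
  obtain ⟨len, B, hg, hB, h⟩ := ex_len (PL F)
  refine ⟨len, hg, fun A => ?_⟩
  set p := Fintype.card F with hp
  obtain ⟨Q, hQ, hA⟩ := adversary (PL F) len A (p * p / 8)
  replace hQ : Q.toFinset.card ≤ p * p / 8 :=
    le_trans (le_of_eq (congrArg (fun i => (@List.toFinset _ i Q).card) (Subsingleton.elim _ _))) hQ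
  let N : F → Finset F := fun a => univ.filter fun b => Sum.inr (a, b) ∈ Q.toFinset
  obtain ⟨a, -, ha⟩ : ∃ a ∈ (univ : Finset F), p * (N a).card ≤ Q.toFinset.card := by
    refine exists_le_of_sum_le univ_nonempty ?_
    rw [← mul_sum, sum_const, card_univ, smul_eq_mul]
    refine Nat.mul_le_mul_left _ ?_
    rw [← card_sigma]
    refine card_le_card_of_injOn (fun x => Sum.inr (x.1, x.2)) (fun x hx => ?_) ?_
    · exact mem_coe.2 (mem_filter.1 (mem_sigma.1 (mem_coe.1 hx)).2).2
    · rintro ⟨x, y⟩ - ⟨x', y'⟩ - e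
      obtain ⟨rfl, rfl⟩ := Prod.mk.inj (Sum.inr.inj e)
      rfl
  let n0 : ℝ := Fintype.card ((F × F) ⊕ (F × F))
  let d : Sym2 ((F × F) ⊕ (F × F)) → ℝ := fun e => if ∃ b, Sum.inr (a, b) ∈ e then n0 + 2 else n0 + 1
  have hd : ∀ e, n0 < d e := fun e => by simp only [d]; split_ifs <;> linarith
  refine ⟨cap d Q, fun e => ?_, fun n hn => ?_⟩
  · by_cases he : Tch Q e
    · exact (cap_tch d d Q e he).2.1
    · rw [cap_not _ _ _ he]; exact lt_of_le_of_lt (Nat.cast_nonneg _) (hd e)
  have hn' : (chosen (PL F) len (cap d Q) A n).ncard ≤ p * p / 8 := by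
    simp only [Fintype.card_sum, Fintype.card_prod, ← hp] at hn
    omega
  let Au := univ.filter fun τ : F × F × F => pt τ ∈ Q.toFinset
  let At := univ.filter fun τ : F × F × F => ln τ ∈ Q.toFinset
  let As := univ.filter fun τ : F × F × F => src a τ ∈ N a
  let Aa := univ.filter fun τ : F × F × F => τ.2.1 ∈ ({a} : Finset F)
  have bu : Au.card ≤ p * Q.toFinset.card := by
    refine fib (F := F) pt (fun τ => τ.2.1) (fun x y e1 e2 => ?_) _
    obtain ⟨e3, e4⟩ := Prod.mk.inj (Sum.inl.inj e1)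
    exact Prod.ext e3 (Prod.ext e2 (by rw [e2, e3] at e4; exact add_left_cancel e4))
  have bt : At.card ≤ p * Q.toFinset.card :=
    fib (F := F) ln (fun τ => τ.1) (fun x y e1 e2 => Prod.ext e2 (Sum.inr.inj e1)) _
  have bs : As.card ≤ p * Q.toFinset.card := by
    have := fib (F := F) (src a) (fun τ => (τ.1, τ.2.1)) (fun x y e1 e2 => by
      obtain ⟨e3, e4⟩ := Prod.mk.inj e2
      refine Prod.ext e3 (Prod.ext e4 ?_)
      unfold src at e1
      rw [e3, e4] at e1
      exact add_left_cancel (sub_left_injective e1)) (N a)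
    rw [Fintype.card_prod, ← hp, mul_assoc] at this
    exact this.trans (Nat.mul_le_mul_left _ ha)
  have ba : Aa.card ≤ p * p := by
    have := fib (F := F) (fun τ : F × F × F => τ.2.1) (fun τ => (τ.1, τ.2.2)) (fun x y e1 e2 => by
      obtain ⟨e3, e4⟩ := Prod.mk.inj e2
      exact Prod.ext e3 (Prod.ext e1 e4)) {a}
    rwa [Fintype.card_prod, ← hp, card_singleton, mul_one] at this
  have r1 : (R (PL F) len (cap d Q) (chosen (PL F) len (cap d Q) A n)).ncard ≤ Au.card + At.card := by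
    refine le_trans ?_ (card_union_le _ _)
    refine le_trans (Set.ncard_le_ncard (t := (((Au ∪ At).image ed : Finset _) : Set _)) ?_
      (Set.toFinite _)) (by rw [Set.ncard_coe_finset]; exact card_image_le)
    intro e he
    obtain ⟨x, hx, hxe⟩ := hA d hd n hn' e he
    obtain ⟨s, -, t, q, -, hq, -⟩ := he
    obtain ⟨τ, rfl⟩ := ed_surj e (q.edges_subset_edgeSet hq)
    refine mem_coe.2 (mem_image_of_mem _ (mem_union.2 ?_))
    rcases Sym2.mem_iff.1 hxe with rfl | rfl
    · exact Or.inl (mem_filter.2 ⟨mem_univ _, List.mem_toFinset.2 hx⟩)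
    · exact Or.inr (mem_filter.2 ⟨mem_univ _, List.mem_toFinset.2 hx⟩)
  let S : Set ((F × F) ⊕ (F × F)) := Set.range fun b => Sum.inr (a, b)
  have hS : S.ncard = p := by
    rw [Set.ncard_range_of_injective fun x y e => (Prod.mk.inj (Sum.inr.inj e)).2, Nat.card_eq_fintype_card]
  let W := univ \ (Au ∪ At ∪ As ∪ Aa)
  have r2 : W.card ≤ (R (PL F) len (cap d Q) S).ncard := by
    rw [← card_image_of_injective W ed_inj, ← Set.ncard_coe_finset]
    refine Set.ncard_le_ncard (fun e he => ?_) (Set.toFinite _)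
    obtain ⟨τ, hτ, rfl⟩ := mem_image.1 (mem_coe.1 he)
    have hτ' := (mem_sdiff.1 hτ).2
    simp only [Au, At, As, Aa, N, mem_union, mem_filter, mem_univ, true_and, not_or, mem_singleton,
      List.mem_toFinset] at hτ'
    obtain ⟨⟨⟨k1, k2⟩, k3⟩, k4⟩ := hτ'
    refine ⟨_, ⟨_, rfl⟩, _, two len B hB h _ a τ k4 ?_⟩
    rw [cap_not, cap_not]
    · simp only [d]
      rw [if_neg, if_pos ⟨_, Sym2.mem_mk_left _ _⟩]
      · linarith
      · rintro ⟨b, hb⟩
        rcases Sym2.mem_iff.1 hb with e | e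
        · cases e
        · exact k4 (congrArg Prod.fst (Sum.inr.inj e)).symm
    · rintro ⟨x, hx, hxe⟩
      rcases Sym2.mem_iff.1 hxe with rfl | rfl
      · exact k3 hx
      · exact k1 hx
    · rintro ⟨x, hx, hxe⟩
      rcases Sym2.mem_iff.1 hxe with rfl | rfl
      · exact k1 hx
      · exact k2 hx
  have r3 : (R (PL F) len (cap d Q) S).ncard ≤ OPT (PL F) len (cap d Q) p := by
    refine le_csSup ⟨Nat.card (Sym2 ((F × F) ⊕ (F × F))), ?_⟩ ⟨S, hS, rfl⟩
    rintro m ⟨S', -, rfl⟩
    exact Set.ncard_le_card _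
  have r4 : p * (p * p) ≤ W.card + (Au.card + At.card + As.card + Aa.card) := by
    have e1 := le_card_sdiff (Au ∪ At ∪ As ∪ Aa) univ
    have e2 := card_union_le (Au ∪ At ∪ As) Aa
    have e3 := card_union_le (Au ∪ At) As
    have e4 := card_union_le Au At
    simp only [card_univ, Fintype.card_prod, ← hp] at e1
    simp only [W]
    omega
  have r5 : 8 * Q.toFinset.card ≤ p * p := by omega
  have r6 : 8 * (p * Q.toFinset.card) ≤ p * (p * p) := by nlinarith
  have r7 : 3 * (p * p) ≤ p * (p * p) := Nat.mul_le_mul_right _ h3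
  have r8 : 0 < p * p := by positivity
  omega
end

theorem result :
    (∀ M : ℕ, ∃ (V : Type) (_ : Fintype V) (G : SimpleGraph V) (len : Sym2 V → ℝ) (k : ℕ),
      1 ≤ k ∧ M * k ≤ Fintype.card V ∧ k ≤ Fintype.card V ∧ Good G len ∧
      ∀ A : Strat V, ∃ c : Sym2 V → ℝ, (∀ e, 0 < c e) ∧
        ∀ n, 16 * (chosen G len c A n).ncard ≤ Fintype.card V →
          (R G len c (chosen G len c A n)).ncard < OPT G len c k) ∧
    ¬ ∃ (Alg : (V : Type) → SimpleGraph V → (Sym2 V → ℝ) → ℕ → Strat V) (α : ℕ → ℕ → ℝ),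
      (∀ ε : ℝ, 0 < ε → ∃ M : ℕ, ∀ n k : ℕ, 1 ≤ k → M * k ≤ n → α n k * k ≤ ε * n) ∧
      ∀ (V : Type) [Fintype V] (G : SimpleGraph V) (len c : Sym2 V → ℝ) (k : ℕ),
        1 ≤ k → k ≤ Fintype.card V → Good G len → (∀ e, 0 < c e) →
        ∃ n, ((chosen G len c (Alg V G len k) n).ncard : ℝ) ≤ α (Fintype.card V) k * k ∧
          OPT G len c k ≤ (R G len c (chosen G len c (Alg V G len k) n)).ncard := by
  have A : ∀ M : ℕ, ∃ (V : Type) (_ : Fintype V) (G : SimpleGraph V) (len : Sym2 V → ℝ) (k : ℕ),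
      1 ≤ k ∧ M * k ≤ Fintype.card V ∧ k ≤ Fintype.card V ∧ Good G len ∧
      ∀ A : Strat V, ∃ c : Sym2 V → ℝ, (∀ e, 0 < c e) ∧
        ∀ n, 16 * (chosen G len c A n).ncard ≤ Fintype.card V →
          (R G len c (chosen G len c A n)).ncard < OPT G len c k := by
    intro M
    obtain ⟨p, hp, hpp⟩ := Nat.exists_infinite_primes (M + 3)
    haveI := Fact.mk hpp
    have hc : Fintype.card (ZMod p) = p := ZMod.card p
    obtain ⟨len, h1, h2⟩ := main (F := ZMod p) (by omega)
    refine ⟨_, inferInstance, PL (ZMod p), len, _, by omega, ?_, ?_, h1, h2⟩ <;>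
    · simp only [Fintype.card_sum, Fintype.card_prod, hc]
      nlinarith
  refine ⟨A, ?_⟩
  rintro ⟨Alg, α, h1, h2⟩
  obtain ⟨M, hM⟩ := h1 (1 / 16) (by norm_num)
  obtain ⟨V, i, G, len, k, k1, k2, k3, k4, k5⟩ := A M
  obtain ⟨c, hc, h⟩ := k5 (Alg V G len k)
  obtain ⟨n, a1, a2⟩ := h2 V G len c k k1 k3 k4 hc
  have a3 := hM _ k k1 k2
  have a4 : ((16 * (chosen G len c (Alg V G len k) n).ncard : ℕ) : ℝ) ≤ Fintype.card V := by
    push_cast; linarith
  exact absurd (h n (by exact_mod_cast a4)) (not_lt.2 a2)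

end Pool.Agent.Results.MP_617207_lc.LinearLower
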